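import Pool.Agent.Helper96.LB3.Stmts

/-!
Log-Brunn-Minkowski in dimension three: from the midpoint form to all weights.
-/

open MeasureTheory Module
open scoped ENNReal Pointwise

namespace Pool.Agent.Helper32.LB3

open Pool.Agent.Helper96.LB3

/-- A continuous midpoint concave function which vanishes at the end points is nonnegative. -/
theorem nonneg_of_mid (φ : ℝ → ℝ) (hc : Continuous φ)
    (h : ∀ a b, φ a + φ b ≤ 2 * φ ((a + b) / 2)) (h0 : φ 0 = 0) (h1 : φ 1 = 0) :
    ∀ t ∈ Set.Icc (0 : ℝ) 1, 0 ≤ φ t := by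
  intro t ht
  by_contra hneg
  push Not at hneg
  have hcomp : IsCompact (Set.Icc (0 : ℝ) 1) := isCompact_Icc
  obtain ⟨t0, ht0, hmin⟩ := hcomp.exists_isMinOn ⟨t, ht⟩ hc.continuousOn
  have hm : φ t0 < 0 := lt_of_le_of_lt (hmin ht) hneg
  have hS : IsCompact (Set.Icc (0 : ℝ) 1 ∩ φ ⁻¹' {φ t0}) :=
    hcomp.inter_right (isClosed_singleton.preimage hc)
  obtain ⟨t1, ⟨ht1, hft1⟩, hleast⟩ := hS.exists_isLeast ⟨t0, ht0, rfl⟩
  have hft1' : φ t1 = φ t0 := hft1
  have ht1pos : 0 < t1 := by
    rcases lt_or_eq_of_le ht1.1 with h' | h'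
    · exact h'
    · rw [← h', h0] at hft1'; linarith
  have ht1lt : t1 < 1 := by
    rcases lt_or_eq_of_le ht1.2 with h' | h'
    · exact h'
    · rw [h', h1] at hft1'; linarith
  set δ := min t1 (1 - t1) with hδ
  have hδpos : 0 < δ := lt_min ht1pos (by linarith)
  have hδ1 : δ ≤ t1 := min_le_left _ _
  have hδ2 : δ ≤ 1 - t1 := min_le_right _ _
  have hmemL : t1 - δ ∈ Set.Icc (0 : ℝ) 1 := ⟨by linarith, by linarith⟩
  have hmemR : t1 + δ ∈ Set.Icc (0 : ℝ) 1 := ⟨by linarith, by linarith⟩
  have hL : φ t0 ≤ φ (t1 - δ) := hmin hmemL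
  have hR : φ t0 ≤ φ (t1 + δ) := hmin hmemR
  have hLne : φ (t1 - δ) ≠ φ t0 := by
    intro he
    have := hleast ⟨hmemL, he⟩
    linarith
  have hLlt : φ t0 < φ (t1 - δ) := lt_of_le_of_ne hL (Ne.symm hLne)
  have hmid := h (t1 - δ) (t1 + δ)
  have he : (t1 - δ + (t1 + δ)) / 2 = t1 := by ring
  rw [he, hft1'] at hmid
  linarith

/-- Scaling of the body. -/
theorem KS_smul {X ι : Type} [NormedAddCommGroup X] [NormedSpace ℝ X] (φ : ι → X →ₗ[ℝ] ℝ) (h : ι → ℝ) (c : ℝ) (hc : 0 < c) :
    KS φ (fun u => c * h u) = c • KS φ h := by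
  ext x
  rw [Set.mem_smul_set_iff_inv_smul_mem₀ hc.ne']
  simp only [KS, Set.mem_ofPred_eq, map_smul, smul_eq_mul, abs_mul, abs_inv, abs_of_pos hc]
  refine forall_congr' fun u => ?_
  rw [inv_mul_le_iff₀ hc]

/-- Scaling of the volume. -/
theorem VS_smul {X ι : Type} [NormedAddCommGroup X] [NormedSpace ℝ X] [FiniteDimensional ℝ X]
    [MeasurableSpace X] [BorelSpace X] (μ : Measure X) [μ.IsAddHaarMeasure] (φ : ι → X →ₗ[ℝ] ℝ) (h : ι → ℝ) (c : ℝ)
    (hc : 0 < c) : VS μ φ (fun u => c * h u) = c ^ finrank ℝ X * VS μ φ h := by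
  unfold VS Measure.real
  rw [KS_smul φ h c hc, Measure.addHaar_smul_of_nonneg μ hc.le, ENNReal.toReal_mul,
    ENNReal.toReal_ofReal (pow_nonneg hc.le _)]

theorem st_MID (hPOS : ST_POS) : ST_MID := by
  intro X ι _ _ _ _ _ μ _ _ φ hsep hmid l m hl hm hlm σ τ
  set M : ℝ := ∑ u, |τ u - σ u| with hM
  have hM0 : 0 ≤ M := Finset.sum_nonneg fun u _ => abs_nonneg _
  have hMu : ∀ u, |τ u - σ u| ≤ M := fun u =>
    Finset.single_le_sum (f := fun u => |τ u - σ u|) (fun i _ => abs_nonneg _) (Finset.mem_univ u)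
  set d : ℝ := (finrank ℝ X : ℝ) with hd
  set s : ℝ → ι → ℝ := fun t u => σ u + t * (τ u - σ u) with hs
  set V : ℝ → ℝ := fun t => VS μ φ (fun u => Real.exp (s t u)) with hV
  have hVpos : ∀ t, 0 < V t := fun t =>
    (hPOS X ι μ φ (fun u => Real.exp (s t u)) hsep (fun u => Real.exp_pos _)).2.2.1
  set g : ℝ → ℝ := fun t => Real.log (V t) with hg
  -- Lipschitz bound
  have hle : ∀ t t', g t ≤ g t' + d * M * |t - t'| := by
    intro t t'
    have hfin := (hPOS X ι μ φ (fun u => Real.exp (M * |t - t'|) * Real.exp (s t' u)) hsep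
      (fun u => mul_pos (Real.exp_pos _) (Real.exp_pos _))).2.2.2
    have h1 : V t ≤ Real.exp (M * |t - t'|) ^ finrank ℝ X * V t' := by
      rw [hV]
      simp only
      rw [← VS_smul μ φ (fun u => Real.exp (s t' u)) _ (Real.exp_pos _)]
      unfold VS
      refine measureReal_mono ?_ hfin.ne
      intro x hx u
      refine (hx u).trans ?_
      simp only
      rw [← Real.exp_add]
      refine Real.exp_le_exp.mpr ?_
      have h2 : s t u - s t' u = (t - t') * (τ u - σ u) := by simp only [hs]; ring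
      have h3 : s t u - s t' u ≤ M * |t - t'| := by
        rw [h2]
        refine (le_abs_self _).trans ?_
        rw [abs_mul, mul_comm]
        exact mul_le_mul_of_nonneg_right (hMu u) (abs_nonneg _)
      linarith
    have h4 := Real.log_le_log (hVpos t) h1
    rw [Real.log_mul (pow_pos (Real.exp_pos _) _).ne' (hVpos t').ne', Real.log_pow,
      Real.log_exp] at h4
    simp only [hg]
    rw [hd]
    nlinarith [h4]
  have hgc : Continuous g := by
    have : LipschitzWith (Real.toNNReal (d * M)) g := by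
      refine LipschitzWith.of_dist_le_mul fun t t' => ?_
      rw [Real.coe_toNNReal _ (mul_nonneg (by rw [hd]; positivity) hM0), Real.dist_eq,
        Real.dist_eq, abs_le]
      have h1 := hle t t'
      have h2 := hle t' t
      rw [abs_sub_comm t' t] at h2
      constructor <;> linarith
    exact this.continuous
  -- midpoint concavity
  have hgm : ∀ a b, g a + g b ≤ 2 * g ((a + b) / 2) := by
    intro a b
    have h1 := hmid (fun u => Real.exp (s a u)) (fun u => Real.exp (s b u))
      (fun u => Real.exp_pos _) (fun u => Real.exp_pos _)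
    have h2 : gm (fun u => Real.exp (s a u)) (fun u => Real.exp (s b u)) =
        fun u => Real.exp (s ((a + b) / 2) u) := by
      funext u
      unfold gm
      rw [← Real.exp_add]
      have h3 : s a u + s b u = s ((a + b) / 2) u + s ((a + b) / 2) u := by
        simp only [hs]; ring
      rw [h3, Real.exp_add, Real.sqrt_mul_self (Real.exp_pos _).le]
    rw [h2] at h1
    have h4 : Real.log (V a * V b) ≤ Real.log ((V ((a + b) / 2)) ^ 2) :=
      Real.log_le_log (mul_pos (hVpos a) (hVpos b)) h1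
    rw [Real.log_mul (hVpos a).ne' (hVpos b).ne', Real.log_pow] at h4
    simpa [hg] using h4
  -- concavity on the segment
  have key := nonneg_of_mid (fun t => g t - ((1 - t) * g 0 + t * g 1))
    (hgc.sub (((continuous_const.sub continuous_id).mul continuous_const).add
      (continuous_id.mul continuous_const)))
    (by
      intro a b
      have := hgm a b
      nlinarith [this])
    (by simp) (by simp) m ⟨hm.le, by linarith⟩
  have hl' : 1 - m = l := by linarith
  simp only [hl'] at key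
  have hV0 : V 0 = VS μ φ (fun u => Real.exp (σ u)) := by simp [hV, hs]
  have hV1 : V 1 = VS μ φ (fun u => Real.exp (τ u)) := by simp [hV, hs]
  have hVm : V m = VS μ φ (fun u => Real.exp (l * σ u + m * τ u)) := by
    simp only [hV, hs]
    congr 1
    funext u
    congr 1
    rw [← hl']
    ring
  rw [← hV0, ← hV1, ← hVm]
  have h5 : Real.log (V 0 ^ l * V 1 ^ m) ≤ Real.log (V m) := by
    rw [Real.log_mul (Real.rpow_pos_of_pos (hVpos 0) _).ne'
      (Real.rpow_pos_of_pos (hVpos 1) _).ne', Real.log_rpow (hVpos 0), Real.log_rpow (hVpos 1)]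
    have : g m - (l * g 0 + m * g 1) ≥ 0 := key
    simp only [hg] at this
    linarith
  exact (Real.log_le_log_iff (mul_pos (Real.rpow_pos_of_pos (hVpos 0) _)
    (Real.rpow_pos_of_pos (hVpos 1) _)) (hVpos m)).mp h5

end Pool.Agent.Helper32.LB3
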